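import Pool.Agent.H65.HT.Cut

/-!
# Groups acting on trees with a height function

Let `G` act on a tree with a height function, the heights being shifted by a homomorphism `χ : G → ℤ`, such that each
nontrivial element fixes only vertices whose heights differ by at most `β`. Then `G` acts acylindrically on the tree of
slabs of thickness `L ≥ β`: if `g ≠ 1` fixes two vertices of the tree of slabs, their distance is at most `2 L`. The
stabilisers of the vertices of the tree of slabs are contained in the kernel of `χ`.
-/

set_option autoImplicit false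

namespace Pool.Agent.H65.HT

open Pool.Agent.H98.FJ Pool.Agent.H93.TR

/-- closed under acylindrical actions of countable groups on trees without inversions -/
def Acyl (C : (G : Type) → [Group G] → Prop) : Prop :=
  ∀ (G V : Type) [Group G] [Countable G] [MulAction G V] (X : SimpleGraph V),
    OnTree G X → NoInv X (⊤ : Subgroup G) →
    (∃ k : ℕ, ∀ (g : G) (v w : V), k ≤ X.dist v w → g • v = v → g • w = w → g = 1) →
    (∀ v : V, C (MulAction.stabilizer G v)) → C G

section Action

variable {G V : Type} [Group G] [MulAction G V] {X : SimpleGraph V} {h : V → ℤ}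
  {χ : G →* Multiplicative ℤ}

/-- the heights are shifted by the homomorphism -/
def Shifts (h : V → ℤ) (χ : G →* Multiplicative ℤ) : Prop :=
  ∀ (g : G) (v : V), h (g • v) = h v + Multiplicative.toAdd (χ g)

theorem slab_smul (hX : OnTree G X) (hs : Shifts h χ) (g : G) {a b a' b' : ℤ}
    (ha : a' = a + Multiplicative.toAdd (χ g)) (hb : b' = b + Multiplicative.toAdd (χ g)) {u v : V}
    (hr : (slab X h a b).Reachable u v) : (slab X h a' b').Reachable (g • u) (g • v) := by
  obtain ⟨p⟩ := hr
  induction p with
  | nil => exact SimpleGraph.Reachable.refl _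
  | @cons u u' v hadj p ih =>
    refine SimpleGraph.Reachable.trans (SimpleGraph.Adj.reachable ?_) ih
    obtain ⟨h1, h2, h3⟩ := hadj
    refine ⟨hX.adj g _ _ h1, ?_, ?_⟩
    · rw [hs g u]
      omega
    · rw [hs g u']
      omega

theorem shift_bound (hs : Shifts h χ) {L : ℕ} (g : G) {i : ℤ} {u : V}
    (hi : i ≤ h u ∧ h u ≤ i + L) :
    i + Multiplicative.toAdd (χ g) ≤ h (g • u) ∧
      h (g • u) ≤ i + Multiplicative.toAdd (χ g) + L := by
  rw [hs g u]
  omega

/-- the action on the pairs -/
def spSmul (hs : Shifts h χ) (L : ℕ) (g : G) (p : SP h L) : SP h L :=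
  ⟨(p.1.1 + Multiplicative.toAdd (χ g), g • p.1.2), shift_bound hs g p.2⟩

/-- the action on the tree of slabs -/
@[reducible] def svAction (hX : OnTree G X) (hs : Shifts h χ) (L : ℕ) : MulAction G (SV X h L) where
  smul g := Quotient.map' (s₁ := spSetoid X h L) (s₂ := spSetoid X h L) (spSmul hs L g) (by
    rintro p q ⟨h1, h2⟩
    refine ⟨by simp only [spSmul, h1], ?_⟩
    exact slab_smul hX hs g rfl (by simp only [spSmul]; ring) h2)
  one_smul c := by
    obtain ⟨i, u, hi, rfl⟩ := sv_surj c
    change sv X (i + Multiplicative.toAdd (χ 1)) ((1 : G) • u) (shift_bound hs 1 hi) = _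
    rw [sv_eq_iff]
    rw [map_one, one_smul]
    exact ⟨by simp, SimpleGraph.Reachable.refl _⟩
  mul_smul g g' c := by
    obtain ⟨i, u, hi, rfl⟩ := sv_surj c
    change sv X (i + Multiplicative.toAdd (χ (g * g'))) ((g * g') • u) (shift_bound hs _ hi) =
      sv X (i + Multiplicative.toAdd (χ g') + Multiplicative.toAdd (χ g)) (g • g' • u)
        (shift_bound hs g (shift_bound hs g' hi))
    rw [sv_eq_iff]
    rw [map_mul, mul_smul, toAdd_mul]
    exact ⟨by ring, SimpleGraph.Reachable.refl _⟩

theorem smul_sv (hX : OnTree G X) (hs : Shifts h χ) (L : ℕ) (g : G) {i : ℤ} {u : V}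
    (hi : i ≤ h u ∧ h u ≤ i + L) :
    (svAction hX hs L).toSMul.smul g (sv X i u hi) =
      sv X (i + Multiplicative.toAdd (χ g)) (g • u) (shift_bound hs g hi) := rfl

end Action

/-- groups acting on trees with a height function -/
theorem height_tree {C : (G : Type) → [Group G] → Prop} (hC : Inherits C) (hA : Acyl C)
    {G V : Type} [Group G] [Countable G] [MulAction G V] {X : SimpleGraph V} (hX : OnTree G X)
    (h : V → ℤ) (hh : IsHeight X h) (χ : G →* Multiplicative ℤ) (hs : Shifts h χ)
    (hK : C χ.ker) (β : ℕ)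
    (hβ : ∀ g : G, g ≠ 1 → ∀ v w : V, g • v = v → g • w = w → h v ≤ h w + β) : C G := by
  obtain ⟨L, hL1, hLβ⟩ : ∃ L : ℕ, 1 ≤ L ∧ β ≤ L := ⟨β + 1, by omega, by omega⟩
  let _ := svAction hX hs L
  have hsm : ∀ (g : G) (i : ℤ) (u : V) (hi : i ≤ h u ∧ h u ≤ i + L),
      g • sv X i u hi = sv X (i + Multiplicative.toAdd (χ g)) (g • u) (shift_bound hs g hi) :=
    fun g i u hi => rfl
  have hht : ∀ (g : G) (c : SV X h L), sht (g • c) = sht c + Multiplicative.toAdd (χ g) := by
    intro g c
    obtain ⟨i, u, hi, rfl⟩ := sv_surj c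
    rw [hsm, sht_sv, sht_sv]
  have hup : ∀ (g : G) (c d : SV X h L), SUp c d → SUp (g • c) (g • d) := by
    rintro g c d ⟨i, u, h1, h2, rfl, rfl⟩
    refine ⟨i + Multiplicative.toAdd (χ g), g • u, ?_, ?_, ?_, ?_⟩
    · rw [hs g u]
      omega
    · rw [hs g u]
      omega
    · rw [hsm]
    · rw [hsm, sv_eq_iff]
      exact ⟨by ring, SimpleGraph.Reachable.refl _⟩
  have hY : OnTree G (ST X h L) :=
    { tree := st_tree hX.tree hh hL1
      adj := fun g c d hcd => hcd.imp (hup g c d) (hup g d c) }
  have hsup : ∀ c d : SV X h L, SUp c d → sht d = sht c + 1 := by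
    rintro c d ⟨i, u, h1, h2, rfl, rfl⟩
    rw [sht_sv, sht_sv]
  have hconn := hY.tree.connected
  refine hA G (SV X h L) (ST X h L) hY ?_ ⟨2 * L + 1, ?_⟩ ?_
  · -- no inversions
    intro g _ c d hcd h1 h2
    have h3 := hht g c
    have h4 := hht g d
    rw [h1] at h3
    rw [h2] at h4
    rcases hcd with hcd | hcd
    · have h5 := hsup _ _ hcd
      omega
    · have h5 := hsup _ _ hcd
      omega
  · -- acylindricity
    intro g c d hdist hc hd
    by_contra hg
    obtain ⟨i, u, hi, rfl⟩ := sv_surj c
    obtain ⟨j, v, hj, rfl⟩ := sv_surj d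
    have hχ : Multiplicative.toAdd (χ g) = 0 := by
      have h3 := hht g (sv X i u hi)
      rw [hc] at h3
      omega
    have hdle : ∀ (y : V) (k l : ℤ) (hk : k ≤ h y ∧ h y ≤ k + L) (hl : l ≤ h y ∧ h y ≤ l + L),
        (ST X h L).dist (sv X k y hk) (sv X l y hl) ≤ L := by
      intro y k l hk hl
      obtain ⟨p, hp⟩ := dist_sv_le (X := X) y k l hk hl
      exact (SimpleGraph.dist_le p).trans hp
    have hgu : (slab X h i (i + L)).Reachable u (g • u) := by
      have h3 := hc
      rw [hsm, sv_eq_iff] at h3
      have h4 := h3.2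
      rw [hχ, add_zero] at h4
      exact h4.symm
    have hgv : (slab X h j (j + L)).Reachable v (g • v) := by
      have h3 := hd
      rw [hsm, sv_eq_iff] at h3
      have h4 := h3.2
      rw [hχ, add_zero] at h4
      exact h4.symm
    by_cases hmeet : ∃ y, (slab X h i (i + L)).Reachable u y ∧ (slab X h j (j + L)).Reachable v y
    · obtain ⟨y, h3, h4⟩ := hmeet
      have h5 := slab_height hi h3
      have h6 := slab_height hj h4
      have h7 : sv X i u hi = sv X i y h5 := (sv_eq_iff _ _).2 ⟨rfl, h3⟩
      have h8 : sv X j v hj = sv X j y h6 := (sv_eq_iff _ _).2 ⟨rfl, h4⟩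
      have h9 := hdle y i j h5 h6
      rw [h7, h8] at hdist
      omega
    · have hd' : ∀ y, (slab X h i (i + L)).Reachable u y →
          ¬ (slab X h j (j + L)).Reachable v y := fun y h3 h4 => hmeet ⟨y, h3, h4⟩
      obtain ⟨a, b, ha, hb, hga, hgb⟩ := bridge hX (slab_le X h _ _) (slab_le X h _ _) u v hd' g
        (fun y hy => hgu.trans (slab_smul hX hs g (by omega) (by omega) hy))
        (fun y hy => hgv.trans (slab_smul hX hs g (by omega) (by omega) hy))
      obtain ⟨p, hp⟩ := path_fixed hX g a b hga hgb
      -- the lowest height of the path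
      obtain ⟨m, hm, hm'⟩ : ∃ m : ℤ, (∀ y ∈ p.support, m ≤ h y) ∧
          (∀ y ∈ p.support, h y ≤ m + L) := by
        classical
        obtain ⟨y0, hy0, hmin⟩ := Finset.exists_min_image p.support.toFinset h
          ⟨a, List.mem_toFinset.2 p.start_mem_support⟩
        rw [List.mem_toFinset] at hy0
        refine ⟨h y0, fun y hy => hmin y (List.mem_toFinset.2 hy), ?_⟩
        intro y hy
        have h3 := hβ g hg y y0 (hp y hy) (hp y0 hy0)
        omega
      have hab : (slab X h m (m + L)).Reachable a b := by
        have key : ∀ {x y : V} (q : X.Walk x y), (∀ z ∈ q.support, m ≤ h z) →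
            (∀ z ∈ q.support, h z ≤ m + L) → (slab X h m (m + L)).Reachable x y := by
          intro x y q
          induction q with
          | nil => intro _ _; exact SimpleGraph.Reachable.refl _
          | @cons x x' y hadj q ih =>
            intro h3 h4
            refine SimpleGraph.Reachable.trans (SimpleGraph.Adj.reachable ?_)
              (ih (fun z hz => h3 z ?_) (fun z hz => h4 z ?_))
            · have h5 : x ∈ (SimpleGraph.Walk.cons hadj q).support :=
                SimpleGraph.Walk.start_mem_support _
              have h6 : x' ∈ (SimpleGraph.Walk.cons hadj q).support := by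
                rw [SimpleGraph.Walk.support_cons]
                exact List.mem_cons_of_mem _ q.start_mem_support
              exact ⟨hadj, ⟨h3 x h5, h4 x h5⟩, h3 x' h6, h4 x' h6⟩
            · rw [SimpleGraph.Walk.support_cons]
              exact List.mem_cons_of_mem _ hz
            · rw [SimpleGraph.Walk.support_cons]
              exact List.mem_cons_of_mem _ hz
        exact key p hm hm'
      have h5 := slab_height hi ha
      have h6 := slab_height hj hb
      have h7 : sv X i u hi = sv X i a h5 := (sv_eq_iff _ _).2 ⟨rfl, ha⟩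
      have h8 : sv X j v hj = sv X j b h6 := (sv_eq_iff _ _).2 ⟨rfl, hb⟩
      have hma : m ≤ h a ∧ h a ≤ m + L := ⟨hm a p.start_mem_support, hm' a p.start_mem_support⟩
      have hmb : m ≤ h b ∧ h b ≤ m + L := ⟨hm b p.end_mem_support, hm' b p.end_mem_support⟩
      have h9 : sv X m a hma = sv X m b hmb := (sv_eq_iff _ _).2 ⟨rfl, hab⟩
      have h10 := hdle a i m h5 hma
      have h11 := hdle b m j hmb h6
      have h12 := hconn.dist_triangle (u := sv X i a h5) (v := sv X m a hma) (w := sv X j b h6)
      rw [h7, h8] at hdist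
      rw [h9] at h12 h10
      omega
  · -- the stabilisers
    intro c
    have hle : MulAction.stabilizer G c ≤ χ.ker := by
      intro g hg
      have h3 := hht g c
      rw [MulAction.mem_stabilizer_iff.1 hg] at h3
      have h4 : Multiplicative.toAdd (χ g) = 0 := by omega
      exact h4
    exact hC.of_injective (Subgroup.inclusion hle) (Subgroup.inclusion_injective hle) hK

end Pool.Agent.H65.HT
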