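import Pool.Agent.H93.TR.WClaim

/-!
# The bridge between two disjoint parts of a tree

If an automorphism of a tree preserves two disjoint connected parts, then it fixes the two ends of the shortest path
between them.
-/

set_option autoImplicit false

namespace Pool.Agent.H65.HT

open Pool.Agent.H98.FJ Pool.Agent.H93.TR

variable {V : Type}

/-- a walk which avoids `a` does not use the edges at `a` -/
theorem avoid {X : SimpleGraph V} (a z : V) {x y : V} (q : X.Walk x y) (hq : a ∉ q.support) :
    (X \ SimpleGraph.fromEdgeSet {s(a, z)}).Reachable x y := by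
  induction q with
  | nil => exact SimpleGraph.Reachable.refl _
  | @cons x x' y hadj q ih =>
    rw [SimpleGraph.Walk.support_cons, List.mem_cons, not_or] at hq
    have h1 : a ≠ x' := fun h => hq.2 (h ▸ q.start_mem_support)
    refine SimpleGraph.Reachable.trans (SimpleGraph.Adj.reachable ?_) (ih hq.2)
    rw [SimpleGraph.sdiff_adj]
    refine ⟨hadj, ?_⟩
    rw [SimpleGraph.fromEdgeSet_adj]
    rintro ⟨h2, -⟩
    rw [Set.mem_singleton_iff, Sym2.eq_iff] at h2
    rcases h2 with ⟨h2, -⟩ | ⟨-, h2⟩
    · exact hq.1 h2.symm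
    · exact h1 h2.symm

/-- a walk in a part of the graph which does not contain `z` does not use the edges at `z` -/
theorem inside {X S : SimpleGraph V} (hS : S ≤ X) (v a z : V) (hz : ¬ S.Reachable v z) {x y : V}
    (hx : S.Reachable v x) (q : S.Walk x y) :
    (X \ SimpleGraph.fromEdgeSet {s(a, z)}).Reachable x y := by
  induction q with
  | nil => exact SimpleGraph.Reachable.refl _
  | @cons x x' y hadj q ih =>
    have hx' : S.Reachable v x' := hx.trans hadj.reachable
    refine SimpleGraph.Reachable.trans (SimpleGraph.Adj.reachable ?_) (ih hx')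
    rw [SimpleGraph.sdiff_adj]
    refine ⟨hS hadj, ?_⟩
    rw [SimpleGraph.fromEdgeSet_adj]
    rintro ⟨h2, -⟩
    rw [Set.mem_singleton_iff, Sym2.eq_iff] at h2
    rcases h2 with ⟨-, h2⟩ | ⟨h2, -⟩
    · exact hz (h2 ▸ hx')
    · exact hz (h2 ▸ hx)

/-- the end of a shortest path between two disjoint parts is unique -/
theorem end_unique {X S1 S2 : SimpleGraph V} (hX : X.IsTree) (h1 : S1 ≤ X) (h2 : S2 ≤ X) (v w : V)
    (hd : ∀ y, S1.Reachable v y → ¬ S2.Reachable w y) (a b : V) (ha : S1.Reachable v a)
    (hb : S2.Reachable w b)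
    (hmin : ∀ a' b', S1.Reachable v a' → S2.Reachable w b' → X.dist a b ≤ X.dist a' b')
    (a' b' : V) (ha' : S1.Reachable v a') (hb' : S2.Reachable w b')
    (heq : X.dist a' b' = X.dist a b) : a' = a := by
  classical
  have hconn := hX.connected
  obtain ⟨p, hp⟩ := hconn.exists_walk_length_eq_dist a b
  cases p with
  | nil => exact absurd hb (hd _ ha)
  | @cons _ z _ haz q =>
    rw [SimpleGraph.Walk.length_cons] at hp
    have hq : q.length = X.dist z b := by
      refine le_antisymm ?_ (SimpleGraph.dist_le q)
      have h3 := hconn.dist_triangle (u := a) (v := z) (w := b)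
      have h4 : X.dist a z = 1 := SimpleGraph.dist_eq_one_iff_adj.2 haz
      omega
    have hz : ¬ S1.Reachable v z := by
      intro hz
      have h3 := hmin z b hz hb
      omega
    have haq : a ∉ q.support := by
      intro haq
      have h3 : (q.takeUntil a haq).length + (q.dropUntil a haq).length = q.length := by
        rw [← SimpleGraph.Walk.length_append, SimpleGraph.Walk.take_spec]
      have h4 := SimpleGraph.dist_le (q.dropUntil a haq)
      omega
    obtain ⟨p', hp'⟩ := hconn.exists_walk_length_eq_dist a' b'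
    have hap : a ∈ p'.support := by
      by_contra hap
      have hbr : ¬ (X \ SimpleGraph.fromEdgeSet {s(a, z)}).Reachable a z := by
        have hbr := (SimpleGraph.isAcyclic_iff_forall_adj_isBridge.1 hX.isAcyclic) haz
        rw [SimpleGraph.isBridge_iff] at hbr
        exact hbr
      have r1 := avoid a z q haq
      have r2 := avoid a z p' hap
      have r3 : (X \ SimpleGraph.fromEdgeSet {s(a, z)}).Reachable b b' := by
        obtain ⟨q'⟩ := (hb.symm.trans hb')
        have r4 := inside h2 w z a (fun h => hd a ha h) hb q'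
        rwa [Sym2.eq_swap] at r4
      have r4 : (X \ SimpleGraph.fromEdgeSet {s(a, z)}).Reachable a' a := by
        obtain ⟨q'⟩ := (ha'.symm.trans ha)
        exact inside h1 v a z hz ha' q'
      exact hbr ((r1.trans r3).trans (r2.symm.trans r4)).symm
    have h3 : (p'.takeUntil a hap).length + (p'.dropUntil a hap).length = p'.length := by
      rw [← SimpleGraph.Walk.length_append, SimpleGraph.Walk.take_spec]
    have h4 := SimpleGraph.dist_le (p'.takeUntil a hap)
    have h5 := SimpleGraph.dist_le (p'.dropUntil a hap)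
    have h6 := hmin a b' ha hb'
    have h7 : X.dist a' a = 0 := by omega
    exact hconn.dist_eq_zero_iff.1 h7

/-- the ends of the bridge are fixed -/
theorem bridge {G : Type} [Group G] [MulAction G V] {X S1 S2 : SimpleGraph V} (hX : OnTree G X)
    (h1 : S1 ≤ X) (h2 : S2 ≤ X) (v w : V)
    (hd : ∀ y, S1.Reachable v y → ¬ S2.Reachable w y) (g : G)
    (hg1 : ∀ y, S1.Reachable v y → S1.Reachable v (g • y))
    (hg2 : ∀ y, S2.Reachable w y → S2.Reachable w (g • y)) :
    ∃ a b, S1.Reachable v a ∧ S2.Reachable w b ∧ g • a = a ∧ g • b = b := by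
  classical
  have hex : ∃ n : ℕ, ∃ a b, S1.Reachable v a ∧ S2.Reachable w b ∧ X.dist a b = n :=
    ⟨_, v, w, SimpleGraph.Reachable.refl _, SimpleGraph.Reachable.refl _, rfl⟩
  obtain ⟨a, b, ha, hb, hab⟩ := Nat.find_spec hex
  have hmin : ∀ a' b', S1.Reachable v a' → S2.Reachable w b' → X.dist a b ≤ X.dist a' b' := by
    intro a' b' ha' hb'
    rw [hab]
    exact Nat.find_min' hex ⟨a', b', ha', hb', rfl⟩
  have hgd : X.dist (g • a) (g • b) = X.dist a b := dist_smul hX g a b
  refine ⟨a, b, ha, hb, ?_, ?_⟩
  · exact end_unique hX.tree h1 h2 v w hd a b ha hb hmin _ _ (hg1 a ha) (hg2 b hb) hgd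
  · refine end_unique hX.tree h2 h1 w v (fun y h3 h4 => hd y h4 h3) b a hb ha ?_ _ _ (hg2 b hb)
      (hg1 a ha) ?_
    · intro b' a' hb' ha'
      rw [SimpleGraph.dist_comm, SimpleGraph.dist_comm (u := b')]
      exact hmin a' b' ha' hb'
    · rw [SimpleGraph.dist_comm, hgd, SimpleGraph.dist_comm]

/-- an element which fixes the ends of a path fixes the path -/
theorem path_fixed {G : Type} [Group G] [MulAction G V] {X : SimpleGraph V} (hX : OnTree G X)
    (g : G) (a b : V) (ha : g • a = a) (hb : g • b = b) :
    ∃ p : X.Walk a b, ∀ y ∈ p.support, g • y = y := by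
  classical
  obtain ⟨p0⟩ := hX.tree.connected.preconnected a b
  obtain ⟨p, hp⟩ : ∃ p : X.Walk a b, p.IsPath := ⟨p0.toPath.1, p0.toPath.2⟩
  let φ : X →g X := ⟨fun v => g • v, fun h => hX.adj g _ _ h⟩
  have hφ : Function.Injective φ := fun x y h => smul_left_cancel g h
  have hp' : ((p.map φ).copy ha hb).IsPath := by
    rw [SimpleGraph.Walk.isPath_copy]
    exact hp.map hφ
  have heq := (hX.tree.isAcyclic.subsingleton_path a b).elim ⟨p, hp⟩ ⟨_, hp'⟩
  have heq2 : p = (p.map φ).copy ha hb := congrArg Subtype.val heq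
  have hs : p.support = p.support.map (fun v => g • v) := by
    have h3 := congrArg SimpleGraph.Walk.support heq2
    rw [SimpleGraph.Walk.support_copy, SimpleGraph.Walk.support_map] at h3
    exact h3
  refine ⟨p, ?_⟩
  intro y hy
  have h4 : p.support.map (fun v => g • v) = p.support.map id := by
    rw [List.map_id]
    exact hs.symm
  exact List.map_inj_left.1 h4 y hy

end Pool.Agent.H65.HT
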