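import Pool.Agent.H65.HT.Slab

/-!
# The graph of slabs is a tree

Each edge is a bridge: for the edge given by the component `E` of the part `[i + 1, i + L]`, a vertex `(j, v)` whose
component meets `E` is above the edge if and only if `i + 1 ≤ j`; if its component does not meet `E`, it is above the edge
if `v` can be reached from `E` without the edges of `X` from `E` to the height `i`.
-/

set_option autoImplicit false

namespace Pool.Agent.H65.HT

open Pool.Agent.H98.FJ Pool.Agent.H93.TR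

variable {V : Type} {X : SimpleGraph V} {h : V → ℤ} {L : ℕ}

/-- the component `E` -/
def InE (X : SimpleGraph V) (h : V → ℤ) (L : ℕ) (i : ℤ) (u0 e : V) : Prop :=
  (slab X h (i + 1) (i + L)).Reachable u0 e

/-- the graph without the edges from `E` to the height `i` -/
def cutG (X : SimpleGraph V) (h : V → ℤ) (L : ℕ) (i : ℤ) (u0 : V) : SimpleGraph V where
  Adj p q := X.Adj p q ∧ ¬ ((InE X h L i u0 p ∧ h q = i) ∨ (InE X h L i u0 q ∧ h p = i))
  symm := ⟨fun _ _ ⟨h1, h2⟩ => ⟨h1.symm, fun h3 => h2 h3.symm⟩⟩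
  loopless := ⟨fun v hv => X.loopless.irrefl v hv.1⟩

/-- the vertices above the edge -/
def InU (X : SimpleGraph V) (h : V → ℤ) (L : ℕ) (i : ℤ) (u0 v : V) : Prop :=
  (cutG X h L i u0).Reachable u0 v

/-- the component of `(j, v)` meets `E` -/
def Meets (X : SimpleGraph V) (h : V → ℤ) (L : ℕ) (i : ℤ) (u0 : V) (j : ℤ) (v : V) : Prop :=
  ∃ e, InE X h L i u0 e ∧ (slab X h j (j + L)).Reachable v e

/-- the side of `(j, v)` -/
def Above (X : SimpleGraph V) (h : V → ℤ) (L : ℕ) (i : ℤ) (u0 : V) (j : ℤ) (v : V) : Prop :=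
  (Meets X h L i u0 j v ∧ i + 1 ≤ j) ∨ (¬ Meets X h L i u0 j v ∧ InU X h L i u0 v)

theorem inE_height {i : ℤ} {u0 : V} (h0 : i + 1 ≤ h u0 ∧ h u0 ≤ i + L) {e : V}
    (he : InE X h L i u0 e) : i + 1 ≤ h e ∧ h e ≤ i + L := slab_height h0 he

theorem slab_le_cutG {i : ℤ} {u0 : V} {a b : ℤ} (ha : i + 1 ≤ a) :
    slab X h a b ≤ cutG X h L i u0 := by
  intro p q hpq
  refine ⟨hpq.1, ?_⟩
  rintro (⟨-, h1⟩ | ⟨-, h1⟩)
  · have h2 := hpq.2.2.1
    omega
  · have h2 := hpq.2.1.1
    omega

theorem inE_inU {i : ℤ} {u0 e : V} (he : InE X h L i u0 e) : InU X h L i u0 e :=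
  SimpleGraph.Reachable.mono (slab_le_cutG (le_refl _)) he

/-- a neighbour of `E` of height `i` is not above the edge -/
theorem not_inU (hX : X.IsTree) {i : ℤ} {u0 e w : V} (he : InE X h L i u0 e) (hew : X.Adj e w)
    (hw : h w = i) : ¬ InU X h L i u0 w := by
  intro hU
  have hbr : ¬ (X \ SimpleGraph.fromEdgeSet {s(e, w)}).Reachable e w := by
    have hbr := (SimpleGraph.isAcyclic_iff_forall_adj_isBridge.1 hX.isAcyclic) hew
    rw [SimpleGraph.isBridge_iff] at hbr
    exact hbr
  apply hbr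
  have h1 : (cutG X h L i u0).Reachable e w := (inE_inU he).symm.trans hU
  refine SimpleGraph.Reachable.mono ?_ h1
  intro p q hpq
  rw [SimpleGraph.sdiff_adj, SimpleGraph.fromEdgeSet_adj]
  refine ⟨hpq.1, ?_⟩
  rintro ⟨h2, -⟩
  rw [Set.mem_singleton_iff, Sym2.eq_iff] at h2
  rcases h2 with ⟨rfl, rfl⟩ | ⟨rfl, rfl⟩
  · exact hpq.2 (Or.inl ⟨he, hw⟩)
  · exact hpq.2 (Or.inr ⟨he, hw⟩)

theorem inU_iff {i : ℤ} {u0 v w : V} (hv : ¬ InE X h L i u0 v) (hw : ¬ InE X h L i u0 w)
    (hadj : X.Adj v w) : InU X h L i u0 v ↔ InU X h L i u0 w := by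
  have h1 : (cutG X h L i u0).Adj v w := by
    refine ⟨hadj, ?_⟩
    rintro (⟨h1, -⟩ | ⟨h1, -⟩)
    · exact hv h1
    · exact hw h1
  exact ⟨fun h2 => h2.trans h1.reachable, fun h2 => h2.trans h1.symm.reachable⟩

/-- a component which meets `E` and does not go above it: its other vertices are below the edge -/
theorem claim_low (hX : X.IsTree) (hh : IsHeight X h) {i : ℤ} {u0 : V}
    (h0 : i + 1 ≤ h u0 ∧ h u0 ≤ i + L) {j : ℤ} (hj : j ≤ i) {v : V}
    (hm : Meets X h L i u0 j v) (hv : ¬ InE X h L i u0 v) : ¬ InU X h L i u0 v := by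
  obtain ⟨e, he, ⟨p⟩⟩ := hm
  induction p with
  | nil => exact absurd he hv
  | @cons v v2 e hadj p ih =>
    by_cases h2 : InE X h L i u0 v2
    · have h3 := inE_height h0 h2
      have h4 := hadj.2.1
      have h5 : ¬ (i + 1 ≤ h v ∧ h v ≤ i + L) := by
        intro h5
        apply hv
        refine SimpleGraph.Reachable.trans h2 (SimpleGraph.Adj.reachable ?_)
        exact ⟨hadj.1.symm, h3, h5⟩
      have h6 : h v = i := by
        rcases hh v v2 hadj.1 with h7 | h7 <;> omega
      exact not_inU hX h2 hadj.1.symm h6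
    · rw [inU_iff hv h2 hadj.1]
      exact ih h2 he

/-- a component which meets `E` and does not go below it is above the edge -/
theorem claim_high {i : ℤ} {u0 : V} {j : ℤ} (hj : i + 1 ≤ j) {v : V}
    (hm : Meets X h L i u0 j v) : InU X h L i u0 v := by
  obtain ⟨e, he, hr⟩ := hm
  exact (inE_inU he).trans (SimpleGraph.Reachable.mono (slab_le_cutG hj) hr.symm)

theorem meets_congr {i : ℤ} {u0 : V} {j : ℤ} {v w : V} (hr : (slab X h j (j + L)).Reachable v w) :
    Meets X h L i u0 j v ↔ Meets X h L i u0 j w :=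
  ⟨fun ⟨e, he, h1⟩ => ⟨e, he, hr.symm.trans h1⟩, fun ⟨e, he, h1⟩ => ⟨e, he, hr.trans h1⟩⟩

theorem above_congr {i : ℤ} {u0 : V} {j : ℤ} {v w : V} (hr : (slab X h j (j + L)).Reachable v w) :
    Above X h L i u0 j v ↔ Above X h L i u0 j w := by
  unfold Above
  rw [meets_congr hr]
  by_cases hm : Meets X h L i u0 j w
  · simp [hm]
  · have h1 : InU X h L i u0 v ↔ InU X h L i u0 w := by
      obtain ⟨p⟩ := hr
      induction p with
      | nil => rfl
      | @cons v v2 w hadj p ih =>
        have hm2 : ¬ Meets X h L i u0 j v2 := fun h3 => hm ((meets_congr ⟨p⟩).1 h3)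
        have hm1 : ¬ Meets X h L i u0 j v := fun h3 =>
          hm2 ((meets_congr hadj.reachable).1 h3)
        have h2 : ¬ InE X h L i u0 v := fun h3 => hm1 ⟨v, h3, SimpleGraph.Reachable.refl _⟩
        have h4 : ¬ InE X h L i u0 v2 := fun h3 => hm2 ⟨v2, h3, SimpleGraph.Reachable.refl _⟩
        rw [inU_iff h2 h4 hadj.1]
        exact ih hm
    simp [hm, h1]

/-- the side is preserved by the other edges -/
theorem above_step (hX : X.IsTree) (hh : IsHeight X h) {i : ℤ} {u0 : V}
    (h0 : i + 1 ≤ h u0 ∧ h u0 ≤ i + L) {j : ℤ} {v : V} 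
    (hne : ¬ (j = i ∧ InE X h L i u0 v)) :
    Above X h L i u0 j v ↔ Above X h L i u0 (j + 1) v := by
  have hEM : ∀ k, InE X h L i u0 v → Meets X h L i u0 k v := fun k hv =>
    ⟨v, hv, SimpleGraph.Reachable.refl _⟩
  unfold Above
  by_cases hm : Meets X h L i u0 j v <;> by_cases hm' : Meets X h L i u0 (j + 1) v
  · simp only [hm, hm', not_true_eq_false, false_and, or_false, true_and]
    constructor
    · intro h1
      omega
    · intro h1
      by_contra h2
      have hji : j = i := by omega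
      subst hji
      refine hne ⟨rfl, ?_⟩
      by_contra hv
      exact claim_low hX hh h0 (le_refl _) hm hv (claim_high (le_refl _) hm')
  · have hv : ¬ InE X h L i u0 v := fun hv => hm' (hEM _ hv)
    simp only [hm, hm', not_true_eq_false, false_and, or_false, true_and, not_false_eq_true,
      false_or]
    constructor
    · intro h1
      exact claim_high h1 hm
    · intro h1
      by_contra h2
      exact claim_low hX hh h0 (by omega) hm hv h1
  · have hv : ¬ InE X h L i u0 v := fun hv => hm (hEM _ hv)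
    simp only [hm, hm', not_true_eq_false, false_and, or_false, true_and, not_false_eq_true,
      false_or]
    constructor
    · intro h1
      by_contra h2
      exact claim_low hX hh h0 (by omega) hm' hv h1
    · intro h1
      exact claim_high h1 hm'
  · simp only [hm, hm', false_and, not_false_eq_true, true_and, false_or]

/-- the side of a vertex of the graph of slabs -/
def aboveQ (X : SimpleGraph V) (h : V → ℤ) (L : ℕ) (i : ℤ) (u0 : V) (c : SV X h L) : Prop :=
  @Quotient.lift (SP h L) Prop (spSetoid X h L) (fun p => Above X h L i u0 p.1.1 p.1.2)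
    (fun p q hpq => by
      obtain ⟨h1, h2⟩ := hpq
      have h3 := above_congr (i := i) (u0 := u0) h2
      rw [eq_iff_iff, h3, h1]) c

theorem aboveQ_sv (i : ℤ) (u0 : V) (j : ℤ) (v : V) (hj : j ≤ h v ∧ h v ≤ j + L) :
    aboveQ X h L i u0 (sv X j v hj) ↔ Above X h L i u0 j v := Iff.rfl

theorem st_tree (hX : X.IsTree) (hh : IsHeight X h) (hL : 1 ≤ L) : (ST X h L).IsTree := by
  have hconn := st_connected hX.connected hh hL
  refine ⟨hconn, ?_⟩
  rw [SimpleGraph.isAcyclic_iff_forall_adj_isBridge]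
  have key : ∀ c d : SV X h L, SUp c d →
      ¬ ((ST X h L) \ SimpleGraph.fromEdgeSet {s(c, d)}).Reachable c d := by
    rintro c d ⟨i, u0, h1, h2, rfl, rfl⟩
    have h0 : i + 1 ≤ h u0 ∧ h u0 ≤ i + L := ⟨h1, h2⟩
    have hinv : ∀ a b, ((ST X h L) \ SimpleGraph.fromEdgeSet
        {s(sv X i u0 ⟨by omega, h2⟩, sv X (i + 1) u0 ⟨h1, by omega⟩)}).Reachable a b →
        (aboveQ X h L i u0 a ↔ aboveQ X h L i u0 b) := by
      have hstep : ∀ a b : SV X h L, SUp a b →
          ¬ (a = sv X i u0 ⟨by omega, h2⟩ ∧ b = sv X (i + 1) u0 ⟨h1, by omega⟩) →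
          (aboveQ X h L i u0 a ↔ aboveQ X h L i u0 b) := by
        rintro a b ⟨j, v, h3, h4, rfl, rfl⟩ hne
        rw [aboveQ_sv, aboveQ_sv]
        refine above_step hX hh h0 ?_
        rintro ⟨rfl, h5⟩
        apply hne
        refine ⟨?_, ?_⟩
        · rw [sv_eq_iff]
          exact ⟨rfl, (SimpleGraph.Reachable.mono (slab_mono X h (by omega) (le_refl _)) h5).symm⟩
        · rw [sv_eq_iff]
          exact ⟨rfl, (SimpleGraph.Reachable.mono (slab_mono X h (le_refl _) (by omega)) h5).symm⟩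
      rintro a b ⟨p⟩
      induction p with
      | nil => rfl
      | @cons a b' b hadj p ih =>
        refine Iff.trans ?_ ih
        rw [SimpleGraph.sdiff_adj, SimpleGraph.fromEdgeSet_adj] at hadj
        obtain ⟨h3, h4⟩ := hadj
        have hne : a ≠ b' := h3.ne
        rcases h3 with h3 | h3
        · refine hstep a b' h3 ?_
          rintro ⟨rfl, rfl⟩
          exact h4 ⟨rfl, hne⟩
        · refine (hstep b' a h3 ?_).symm
          rintro ⟨rfl, rfl⟩
          exact h4 ⟨Sym2.eq_swap, hne⟩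
    intro hr
    have h3 := hinv _ _ hr
    rw [aboveQ_sv, aboveQ_sv] at h3
    have h4 : ∀ k, Meets X h L i u0 k u0 := fun k =>
      ⟨u0, SimpleGraph.Reachable.refl _, SimpleGraph.Reachable.refl _⟩
    have h5 : Above X h L i u0 (i + 1) u0 := Or.inl ⟨h4 _, le_refl _⟩
    rcases h3.2 h5 with ⟨-, h6⟩ | ⟨h6, -⟩
    · omega
    · exact h6 (h4 _)
  intro c d hcd
  rw [SimpleGraph.isBridge_iff]
  rcases hcd with hcd | hcd
  · exact key c d hcd
  · have h1 := key d c hcd
    rw [Sym2.eq_swap] at h1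
    exact fun h2 => h1 h2.symm

end Pool.Agent.H65.HT
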