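import Pool.Agent.H65.HT.Bridge

/-!
# The tree of slabs

`X` is a graph with a height function `h : V → ℤ` which changes by one along each edge. The vertices of `SV X h L` are the
pairs of an integer `i` and a component of the part `slab X h i (i + L)` of `X` between the heights `i` and `i + L`; the
vertex `(i, u)` is joined to `(i + 1, u)` if `i + 1 ≤ h u ≤ i + L`.
-/

set_option autoImplicit false

namespace Pool.Agent.H65.HT

open Pool.Agent.H98.FJ Pool.Agent.H93.TR

variable {V : Type}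

/-- the heights of adjacent vertices differ by one -/
def IsHeight (X : SimpleGraph V) (h : V → ℤ) : Prop :=
  ∀ v w, X.Adj v w → h w = h v + 1 ∨ h v = h w + 1

/-- the part of the graph between the heights `a` and `b` -/
def slab (X : SimpleGraph V) (h : V → ℤ) (a b : ℤ) : SimpleGraph V where
  Adj u v := X.Adj u v ∧ (a ≤ h u ∧ h u ≤ b) ∧ (a ≤ h v ∧ h v ≤ b)
  symm := ⟨fun _ _ ⟨h1, h2, h3⟩ => ⟨h1.symm, h3, h2⟩⟩
  loopless := ⟨fun v hv => X.loopless.irrefl v hv.1⟩

theorem slab_le (X : SimpleGraph V) (h : V → ℤ) (a b : ℤ) : slab X h a b ≤ X :=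
  fun _ _ h1 => h1.1

theorem slab_mono (X : SimpleGraph V) (h : V → ℤ) {a b a' b' : ℤ} (ha : a' ≤ a) (hb : b ≤ b') :
    slab X h a b ≤ slab X h a' b' :=
  fun _ _ h1 => ⟨h1.1, ⟨ha.trans h1.2.1.1, h1.2.1.2.trans hb⟩, ha.trans h1.2.2.1, h1.2.2.2.trans hb⟩

/-- the heights in a component of a slab -/
theorem slab_height {X : SimpleGraph V} {h : V → ℤ} {a b : ℤ} {u v : V}
    (hu : a ≤ h u ∧ h u ≤ b) (hr : (slab X h a b).Reachable u v) : a ≤ h v ∧ h v ≤ b := by
  obtain ⟨p⟩ := hr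
  induction p with
  | nil => exact hu
  | cons hadj _ ih => exact ih hadj.2.2

/-- the pairs `(i, u)` with `u` in the slab `[i, i + L]` -/
def SP (h : V → ℤ) (L : ℕ) : Type := {p : ℤ × V // p.1 ≤ h p.2 ∧ h p.2 ≤ p.1 + L}

/-- two pairs are equivalent if they describe the same component of the same slab -/
def spSetoid (X : SimpleGraph V) (h : V → ℤ) (L : ℕ) : Setoid (SP h L) where
  r p q := p.1.1 = q.1.1 ∧ (slab X h p.1.1 (p.1.1 + L)).Reachable p.1.2 q.1.2
  iseqv :=
    { refl := fun p => ⟨rfl, SimpleGraph.Reachable.refl _⟩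
      symm := fun {p q} ⟨h1, h2⟩ => ⟨h1.symm, by rw [← h1]; exact h2.symm⟩
      trans := fun {p q r} ⟨h1, h2⟩ ⟨h3, h4⟩ => ⟨h1.trans h3, h2.trans (by rw [h1]; exact h4)⟩ }

/-- the vertices of the tree of slabs -/
def SV (X : SimpleGraph V) (h : V → ℤ) (L : ℕ) : Type := Quotient (spSetoid X h L)

/-- the component of `u` in the slab `[i, i + L]` -/
def sv (X : SimpleGraph V) {h : V → ℤ} {L : ℕ} (i : ℤ) (u : V) (hi : i ≤ h u ∧ h u ≤ i + L) :
    SV X h L :=
  Quotient.mk (spSetoid X h L) ⟨(i, u), hi⟩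

theorem sv_eq_iff {X : SimpleGraph V} {h : V → ℤ} {L : ℕ} {i j : ℤ} {u v : V}
    (hi : i ≤ h u ∧ h u ≤ i + L) (hj : j ≤ h v ∧ h v ≤ j + L) :
    sv X i u hi = sv X j v hj ↔ i = j ∧ (slab X h i (i + L)).Reachable u v := by
  constructor
  · intro h1
    exact Quotient.exact h1
  · intro h1
    exact Quotient.sound h1

theorem sv_surj {X : SimpleGraph V} {h : V → ℤ} {L : ℕ} (c : SV X h L) :
    ∃ (i : ℤ) (u : V) (hi : i ≤ h u ∧ h u ≤ i + L), c = sv X i u hi := by
  obtain ⟨⟨⟨i, u⟩, hi⟩, rfl⟩ := Quotient.exists_rep c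
  exact ⟨i, u, hi, rfl⟩

/-- the height of a vertex of the tree of slabs -/
def sht {X : SimpleGraph V} {h : V → ℤ} {L : ℕ} (c : SV X h L) : ℤ :=
  @Quotient.lift (SP h L) ℤ (spSetoid X h L) (fun p => p.1.1) (fun _ _ h1 => h1.1) c

theorem sht_sv {X : SimpleGraph V} {h : V → ℤ} {L : ℕ} (i : ℤ) (u : V)
    (hi : i ≤ h u ∧ h u ≤ i + L) : sht (sv X i u hi) = i := rfl

/-- the oriented edges of the tree of slabs -/
def SUp {X : SimpleGraph V} {h : V → ℤ} {L : ℕ} (c d : SV X h L) : Prop :=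
  ∃ (i : ℤ) (u : V) (h1 : i + 1 ≤ h u) (h2 : h u ≤ i + L),
    c = sv X i u ⟨by omega, h2⟩ ∧ d = sv X (i + 1) u ⟨h1, by omega⟩

/-- the tree of slabs -/
def ST (X : SimpleGraph V) (h : V → ℤ) (L : ℕ) : SimpleGraph (SV X h L) where
  Adj c d := SUp c d ∨ SUp d c
  symm := ⟨fun _ _ h1 => h1.symm⟩
  loopless := ⟨by
    rintro c (⟨i, u, h1, h2, h3, h4⟩ | ⟨i, u, h1, h2, h3, h4⟩) <;>
    · have h5 : sht c = i := by rw [h3]; rfl
      have h6 : sht c = i + 1 := by rw [h4]; rfl
      omega⟩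

/-- two slabs which contain `u` are joined by a path of slabs which contain `u` -/
theorem dist_sv {X : SimpleGraph V} {h : V → ℤ} {L : ℕ} (u : V) (i : ℤ) (n : ℕ)
    (hi : i ≤ h u ∧ h u ≤ i + L) (hn : i + n ≤ h u ∧ h u ≤ i + n + L) :
    ∃ p : (ST X h L).Walk (sv X i u hi) (sv X (i + n) u hn), p.length = n := by
  induction n with
  | zero =>
    have h1 : sv X i u hi = sv X (i + (0 : ℕ)) u hn := by
      rw [sv_eq_iff]
      exact ⟨by simp, SimpleGraph.Reachable.refl _⟩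
    exact ⟨SimpleGraph.Walk.nil.copy rfl h1, by simp⟩
  | succ n ih =>
    have hn' : i + n ≤ h u ∧ h u ≤ i + n + L := by
      push_cast at hn
      omega
    obtain ⟨p, hp⟩ := ih hn'
    have hadj : (ST X h L).Adj (sv X (i + n) u hn') (sv X (i + (n + 1 : ℕ)) u hn) := by
      refine Or.inl ⟨i + n, u, ?_, ?_, rfl, ?_⟩
      · push_cast at hn
        omega
      · omega
      · rw [sv_eq_iff]
        exact ⟨by push_cast; ring, SimpleGraph.Reachable.refl _⟩
    refine ⟨p.concat hadj, ?_⟩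
    rw [SimpleGraph.Walk.length_concat, hp]

theorem dist_sv_le {X : SimpleGraph V} {h : V → ℤ} {L : ℕ} (u : V) (i j : ℤ)
    (hi : i ≤ h u ∧ h u ≤ i + L) (hj : j ≤ h u ∧ h u ≤ j + L) :
    ∃ p : (ST X h L).Walk (sv X i u hi) (sv X j u hj), p.length ≤ L := by
  rcases le_total i j with hij | hij
  · obtain ⟨n, rfl⟩ := Int.le.dest hij
    obtain ⟨p, hp⟩ := dist_sv (X := X) u i n hi hj
    exact ⟨p, by omega⟩
  · obtain ⟨n, rfl⟩ := Int.le.dest hij
    obtain ⟨p, hp⟩ := dist_sv (X := X) u j n hj hi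
    exact ⟨p.reverse, by rw [SimpleGraph.Walk.length_reverse]; omega⟩

/-- the graph of slabs is connected -/
theorem st_connected {X : SimpleGraph V} (hX : X.Connected) {h : V → ℤ} (hh : IsHeight X h) {L : ℕ}
    (hL : 1 ≤ L) : (ST X h L).Connected := by
  have hself : ∀ u : V, h u ≤ h u ∧ h u ≤ h u + L := fun u => ⟨le_refl _, by omega⟩
  have hst : ∀ u v : V, (ST X h L).Reachable (sv X (h u) u (hself u)) (sv X (h v) v (hself v)) := by
    intro u v
    obtain ⟨p⟩ := hX.preconnected u v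
    induction p with
    | nil => exact SimpleGraph.Reachable.refl _
    | @cons u v w hadj p ih =>
      refine SimpleGraph.Reachable.trans ?_ ih
      rcases hh u v hadj with h1 | h1
      · have h2 : h u ≤ h v ∧ h v ≤ h u + L := ⟨by omega, by omega⟩
        have h3 : sv X (h u) u (hself u) = sv X (h u) v h2 := by
          rw [sv_eq_iff]
          exact ⟨rfl, (show (slab X h _ _).Adj u v from ⟨hadj, hself u, h2⟩).reachable⟩
        rw [h3]
        obtain ⟨q, -⟩ := dist_sv_le (X := X) v (h u) (h v) h2 (hself v)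
        exact ⟨q⟩
      · have h2 : h v ≤ h u ∧ h u ≤ h v + L := ⟨by omega, by omega⟩
        have h3 : sv X (h v) v (hself v) = sv X (h v) u h2 := by
          rw [sv_eq_iff]
          exact ⟨rfl, (show (slab X h _ _).Adj v u from ⟨hadj.symm, hself v, h2⟩).reachable⟩
        rw [h3]
        obtain ⟨q, -⟩ := dist_sv_le (X := X) u (h u) (h v) (hself u) h2
        exact ⟨q⟩
  have hne : Nonempty V := hX.nonempty
  refine { preconnected := ?_, nonempty := hne.map fun u => sv X (h u) u (hself u) }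
  intro c d
  obtain ⟨i, u, hi, rfl⟩ := sv_surj c
  obtain ⟨j, v, hj, rfl⟩ := sv_surj d
  obtain ⟨p, -⟩ := dist_sv_le (X := X) u i (h u) hi (hself u)
  obtain ⟨q, -⟩ := dist_sv_le (X := X) v (h v) j (hself v) hj
  exact (SimpleGraph.Reachable.trans ⟨p⟩ (hst u v)).trans ⟨q⟩

end Pool.Agent.H65.HT
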